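import Pool.Agent.R142.UC.Inst

/-!
# Vertex sets of graphs: orientations with large in-degrees, and degree bounds
-/

open Finset

namespace Pool.Agent.R142.UC

variable {V : Type*} [Fintype V] [DecidableEq V]

/-- the edges of `G` with both ends in `S` -/
def edgesIn (G : SimpleGraph V) [DecidableRel G.Adj] (S : Finset V) : Finset (Sym2 V) :=
  G.edgeFinset.filter (fun e => ∀ y ∈ e, y ∈ S)

variable (G : SimpleGraph V) [DecidableRel G.Adj]

theorem mk_mem_edgesIn (S : Finset V) (x y : V) :
    s(x, y) ∈ edgesIn G S ↔ G.Adj x y ∧ x ∈ S ∧ y ∈ S := by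
  unfold edgesIn
  rw [Finset.mem_filter, SimpleGraph.mem_edgeFinset, SimpleGraph.mem_edgeSet]
  constructor
  · rintro ⟨h, h'⟩
    exact ⟨h, h' x (Sym2.mem_mk_left _ _), h' y (Sym2.mem_mk_right _ _)⟩
  · rintro ⟨h, hx, hy⟩
    refine ⟨h, ?_⟩
    intro z hz
    rcases Sym2.mem_iff.1 hz with rfl | rfl
    · exact hx
    · exact hy

theorem edgesIn_mono {S T : Finset V} (h : S ⊆ T) : edgesIn G S ⊆ edgesIn G T := by
  intro e he
  induction e using Sym2.ind with
  | _ x y =>
    rw [mk_mem_edgesIn] at he ⊢
    exact ⟨he.1, h he.2.1, h he.2.2⟩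

theorem two_mul_card_edgesIn (S : Finset V) :
    2 * (edgesIn G S).card = ∑ x ∈ S, (S.filter (fun y => G.Adj x y)).card := by
  have h1 : ∑ x ∈ S, ((edgesIn G S).filter (fun e => x ∈ e)).card =
      ∑ e ∈ edgesIn G S, (S.filter (fun x => x ∈ e)).card :=
    Finset.sum_card_bipartiteAbove_eq_sum_card_bipartiteBelow (fun x (e : Sym2 V) => x ∈ e)
  have h2 : ∑ e ∈ edgesIn G S, (S.filter (fun x => x ∈ e)).card =
      ∑ e ∈ edgesIn G S, 2 := by
    apply Finset.sum_congr rfl
    intro e he
    induction e using Sym2.ind with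
    | _ x y =>
      rw [mk_mem_edgesIn] at he
      have h3 : S.filter (fun z => z ∈ s(x, y)) = {x, y} := by
        ext z
        rw [Finset.mem_filter, Sym2.mem_iff, Finset.mem_insert, Finset.mem_singleton]
        constructor
        · exact fun h => h.2
        · rintro (rfl | rfl)
          · exact ⟨he.2.1, Or.inl rfl⟩
          · exact ⟨he.2.2, Or.inr rfl⟩
      rw [h3, Finset.card_pair he.1.ne]
  have h3 : ∀ x ∈ S, (S.filter (fun y => G.Adj x y)).card =
      ((edgesIn G S).filter (fun e => x ∈ e)).card := by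
    intro x hx
    apply Finset.card_bij (fun y _ => s(x, y))
    · intro y hy
      obtain ⟨hyS, hadj⟩ := Finset.mem_filter.1 hy
      exact Finset.mem_filter.2 ⟨(mk_mem_edgesIn G S x y).2 ⟨hadj, hx, hyS⟩, Sym2.mem_mk_left _ _⟩
    · intro y _ y' _ h
      exact Sym2.congr_right.1 h
    · intro e he
      obtain ⟨he1, he2⟩ := Finset.mem_filter.1 he
      obtain ⟨y, rfl⟩ := Sym2.mem_iff_exists.1 he2
      rw [mk_mem_edgesIn] at he1
      exact ⟨y, Finset.mem_filter.2 ⟨he1.2.2, he1.1⟩, rfl⟩
  rw [Finset.sum_congr rfl h3, h1, h2, Finset.sum_const, smul_eq_mul, mul_comm]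

/-- `D` is an orientation of (some of the edges of) the subgraph induced on `W` in which every
`y ∈ W` has in-degree at least `m y`. -/
def Oriented (m : V → ℕ) (W : Finset V) : Prop :=
  ∃ D : V → V → Prop, (∀ x y, D x y → G.Adj x y ∧ ¬ D y x) ∧
    ∀ y ∈ W, ∃ N : Finset V, N ⊆ W ∧ N.card = m y ∧ ∀ x ∈ N, D x y

/-- Hall's theorem for orientations -/
theorem oriented_iff (m : V → ℕ) (W : Finset V) :
    Oriented G m W ↔ ∀ S ⊆ W, ∑ x ∈ W \ S, m x + (edgesIn G S).card ≤ (edgesIn G W).card := by
  constructor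
  · rintro ⟨D, hD, hN⟩ S hS
    choose! N hNW hNc hND using hN
    -- the chosen edges into `W \ S`
    set Y := (W \ S).biUnion (fun y => (N y).image (fun x => s(x, y))) with hY
    have hYc : Y.card = ∑ y ∈ W \ S, m y := by
      rw [hY, Finset.card_biUnion]
      · apply Finset.sum_congr rfl
        intro y hy
        rw [Finset.card_image_of_injective, hNc y (Finset.mem_sdiff.1 hy).1]
        intro x x' h
        exact Sym2.congr_left.1 h
      · intro y hy y' hy' hne
        rw [Function.onFun, Finset.disjoint_left]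
        intro e he he'
        obtain ⟨x, hx, rfl⟩ := Finset.mem_image.1 he
        obtain ⟨x', hx', heq⟩ := Finset.mem_image.1 he'
        have h1 := hND y (Finset.mem_sdiff.1 hy).1 x hx
        have h2 := hND y' (Finset.mem_sdiff.1 hy').1 x' hx'
        rcases Sym2.eq_iff.1 heq with ⟨_, h4⟩ | ⟨h3, h4⟩
        · exact hne h4.symm
        · subst h3
          subst h4
          exact (hD _ _ h1).2 h2
    have hYd : Disjoint Y (edgesIn G S) := by
      rw [Finset.disjoint_left]
      intro e he he'
      obtain ⟨y, hy, he⟩ := Finset.mem_biUnion.1 he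
      obtain ⟨x, hx, rfl⟩ := Finset.mem_image.1 he
      rw [mk_mem_edgesIn] at he'
      exact (Finset.mem_sdiff.1 hy).2 he'.2.2
    have hYs : Y ∪ edgesIn G S ⊆ edgesIn G W := by
      apply Finset.union_subset _ (edgesIn_mono G hS)
      intro e he
      obtain ⟨y, hy, he⟩ := Finset.mem_biUnion.1 he
      obtain ⟨x, hx, rfl⟩ := Finset.mem_image.1 he
      have hyW := (Finset.mem_sdiff.1 hy).1
      rw [mk_mem_edgesIn]
      exact ⟨(hD _ _ (hND y hyW x hx)).1, hNW y hyW hx, hyW⟩
    rw [← hYc, ← Finset.card_union_of_disjoint hYd]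
    exact Finset.card_le_card hYs
  · intro h
    -- the index set
    let ι := Σ y : {y // y ∈ W}, Fin (m y.1)
    let t : ι → Finset (Sym2 V) := fun i => (edgesIn G W).filter (fun e => i.1.1 ∈ e)
    have hall : ∀ s : Finset ι, s.card ≤ (s.biUnion t).card := by
      intro s
      set T : Finset V := s.image (fun i => i.1.1) with hT
      have hTW : T ⊆ W := by
        intro y hy
        obtain ⟨i, _, rfl⟩ := Finset.mem_image.1 hy
        exact i.1.2
      have h1 : s.card ≤ ∑ y ∈ T, m y := by
        have h2 : s.card ≤ (T.sigma (fun y => (Finset.univ : Finset (Fin (m y))))).card := by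
          apply Finset.card_le_card_of_injOn (fun i => (⟨i.1.1, i.2⟩ : Σ y : V, Fin (m y)))
          · intro i hi
            exact Finset.mem_coe.2 (Finset.mem_sigma.2
              ⟨Finset.mem_image_of_mem _ (Finset.mem_coe.1 hi), Finset.mem_univ _⟩)
          · rintro ⟨⟨y, hy⟩, a⟩ _ ⟨⟨y', hy'⟩, a'⟩ _ heq
            simp only [Sigma.mk.injEq] at heq
            obtain ⟨h3, h4⟩ := heq
            subst h3
            rw [heq_iff_eq] at h4
            subst h4
            rfl
        rw [Finset.card_sigma] at h2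
        simpa using h2
      have h2 := h (W \ T) Finset.sdiff_subset
      rw [Finset.sdiff_sdiff_eq_self hTW] at h2
      have h3 : (edgesIn G W).card ≤ (edgesIn G (W \ T)).card + (s.biUnion t).card := by
        rw [← Nat.add_comm]
        refine le_trans (Finset.card_le_card ?_) (Finset.card_union_le _ _)
        intro e he
        rw [Finset.mem_union]
        by_cases hd : ∃ y ∈ T, y ∈ e
        · left
          obtain ⟨y, hy, hye⟩ := hd
          obtain ⟨i, hi, rfl⟩ := Finset.mem_image.1 hy
          exact Finset.mem_biUnion.2 ⟨i, hi, Finset.mem_filter.2 ⟨he, hye⟩⟩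
        · right
          push Not at hd
          unfold edgesIn at he ⊢
          rw [Finset.mem_filter] at he ⊢
          refine ⟨he.1, ?_⟩
          intro y hy
          exact Finset.mem_sdiff.2 ⟨he.2 y hy, fun hyT => hd y hyT hy⟩
      omega
    obtain ⟨f, hf, hft⟩ := (Finset.all_card_le_biUnion_card_iff_exists_injective t).1 hall
    have hft' : ∀ i, f i ∈ edgesIn G W ∧ i.1.1 ∈ f i := fun i => Finset.mem_filter.1 (hft i)
    refine ⟨fun x y => x ≠ y ∧ ∃ i : ι, i.1.1 = y ∧ f i = s(x, y), ?_, ?_⟩
    · rintro x y ⟨hne, i, hi, hfi⟩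
      have h1 := (hft' i).1
      rw [hfi, mk_mem_edgesIn] at h1
      refine ⟨h1.1, ?_⟩
      rintro ⟨_, j, hj, hfj⟩
      have h2 : f i = f j := by rw [hfi, hfj, Sym2.eq_swap]
      have h3 := hf h2
      subst h3
      exact hne (hj.symm.trans hi)
    · intro y hy
      -- the other ends of the edges assigned to `y`
      have hex : ∀ a : Fin (m y), ∃ x, f ⟨⟨y, hy⟩, a⟩ = s(x, y) := by
        intro a
        obtain ⟨x, hx⟩ := Sym2.mem_iff_exists.1 (hft' ⟨⟨y, hy⟩, a⟩).2
        exact ⟨x, by rw [hx, Sym2.eq_swap]⟩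
      choose g hg using hex
      have hginj : Function.Injective g := by
        intro a b hab
        have h1 : f ⟨⟨y, hy⟩, a⟩ = f ⟨⟨y, hy⟩, b⟩ := by rw [hg, hg, hab]
        have h2 := hf h1
        exact eq_of_heq (Sigma.mk.inj_iff.1 h2).2
      refine ⟨Finset.univ.image g, ?_, ?_, ?_⟩
      · intro x hx
        obtain ⟨a, _, rfl⟩ := Finset.mem_image.1 hx
        have h1 := (hft' ⟨⟨y, hy⟩, a⟩).1
        rw [hg, mk_mem_edgesIn] at h1
        exact h1.2.1
      · rw [Finset.card_image_of_injective _ hginj, Finset.card_univ, Fintype.card_fin]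
      · intro x hx
        obtain ⟨a, _, rfl⟩ := Finset.mem_image.1 hx
        have h1 := (hft' ⟨⟨y, hy⟩, a⟩).1
        rw [hg, mk_mem_edgesIn] at h1
        exact ⟨h1.1.ne, ⟨⟨y, hy⟩, a⟩, rfl, hg a⟩

open scoped Classical in
/-- the vertex sets `W` whose induced subgraph has an orientation with in-degrees at least `m` -/
noncomputable def orientFam (m : V → ℕ) : Finset (Finset V) :=
  Finset.univ.filter (fun W => Oriented G m W)

theorem mem_orientFam (m : V → ℕ) (W : Finset V) : W ∈ orientFam G m ↔ Oriented G m W := by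
  unfold orientFam
  simp

theorem potential_orientFam (m : V → ℕ) (hm : ∀ x, 2 * m x ≤ G.degree x) :
    Potential (orientFam G m)
      (fun S => (2 * (edgesIn G S).card : ℝ) - ∑ x ∈ S, (2 * m x : ℝ))
      (fun x => (G.degree x : ℝ) - 2 * m x) := by
  have hcard : ∀ S : Finset V, (2 * (edgesIn G S).card : ℝ) =
      ∑ x ∈ S, deg (fun x y => if G.Adj x y then (1 : ℝ) else 0) S x := by
    intro S
    have h1 := two_mul_card_edgesIn G S
    have h2 : ((2 * (edgesIn G S).card : ℕ) : ℝ) =
        ((∑ x ∈ S, (S.filter (fun y => G.Adj x y)).card : ℕ) : ℝ) := by rw [h1]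
    push_cast at h2
    rw [h2]
    apply Finset.sum_congr rfl
    intro x _
    unfold deg
    rw [Finset.sum_boole]
  have hdegu : ∀ x, (G.degree x : ℝ) =
      deg (fun x y => if G.Adj x y then (1 : ℝ) else 0) Finset.univ x := by
    intro x
    unfold deg
    rw [Finset.sum_boole, ← SimpleGraph.card_neighborFinset_eq_degree,
      SimpleGraph.neighborFinset_eq_filter]
  have hdiff : ∀ S : Finset V, (2 * (edgesIn G S).card : ℝ) - 2 * (edgesIn G Sᶜ).card =
      ∑ x ∈ S, (G.degree x : ℝ) - ∑ x ∈ Sᶜ, (G.degree x : ℝ) := by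
    intro S
    have h := pot_sub_pot (a := fun x y => if G.Adj x y then (1 : ℝ) else 0) (θ := fun _ => 0)
      (fun x y => by simp only [SimpleGraph.adj_comm]) (Finset.subset_univ S)
    unfold pot at h
    simp only [sub_zero] at h
    rw [hcard, hcard, Finset.compl_eq_univ_sdiff, h]
    simp only [hdegu]
  apply potential_of_supermodular
  · intro W
    rw [mem_orientFam, oriented_iff]
    have key : ∀ S ⊆ W, (∑ x ∈ W \ S, m x + (edgesIn G S).card ≤ (edgesIn G W).card ↔
        (2 * (edgesIn G S).card : ℝ) - ∑ x ∈ S, (2 * m x : ℝ) ≤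
          2 * (edgesIn G W).card - ∑ x ∈ W, (2 * m x : ℝ)) := by
      intro S hS
      rw [← Finset.sum_sdiff hS (f := fun x => (2 * m x : ℝ)), ← Finset.mul_sum, ← Finset.mul_sum]
      have h1 : (∑ x ∈ W \ S, (m x : ℝ)) = ((∑ x ∈ W \ S, m x : ℕ) : ℝ) := by push_cast; rfl
      rw [h1]
      constructor
      · intro h
        have h2 : ((∑ x ∈ W \ S, m x + (edgesIn G S).card : ℕ) : ℝ) ≤ (edgesIn G W).card := by
          exact_mod_cast h
        push_cast at h2 ⊢
        linarith
      · intro h
        have h2 : ((∑ x ∈ W \ S, m x + (edgesIn G S).card : ℕ) : ℝ) ≤ (edgesIn G W).card := by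
          push_cast at h ⊢
          linarith
        exact_mod_cast h2
    exact ⟨fun h S hS => (key S hS).1 (h S hS), fun h S hS => (key S hS).2 (h S hS)⟩
  · have : edgesIn G (∅ : Finset V) = ∅ := by
      rw [Finset.eq_empty_iff_forall_notMem]
      intro e
      induction e using Sym2.ind with
      | _ x y =>
        rw [mk_mem_edgesIn]
        intro h
        exact absurd h.2.1 (Finset.notMem_empty _)
    simp [this]
  · intro S T
    have h1 := Finset.card_union_add_card_inter (edgesIn G S) (edgesIn G T)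
    have h2 : (edgesIn G S ∪ edgesIn G T).card ≤ (edgesIn G (S ∪ T)).card :=
      Finset.card_le_card (Finset.union_subset (edgesIn_mono G Finset.subset_union_left)
        (edgesIn_mono G Finset.subset_union_right))
    have h3 : (edgesIn G S ∩ edgesIn G T).card ≤ (edgesIn G (S ∩ T)).card := by
      apply Finset.card_le_card
      intro e he
      induction e using Sym2.ind with
      | _ x y =>
        rw [Finset.mem_inter, mk_mem_edgesIn, mk_mem_edgesIn] at he
        rw [mk_mem_edgesIn, Finset.mem_inter, Finset.mem_inter]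
        exact ⟨he.1.1, ⟨he.1.2.1, he.2.2.1⟩, ⟨he.1.2.2, he.2.2.2⟩⟩
    have h4 := Finset.sum_union_inter (s₁ := S) (s₂ := T) (f := fun x => (2 * m x : ℝ))
    have h5 : ((edgesIn G S).card + (edgesIn G T).card : ℝ) ≤
        (edgesIn G (S ∪ T)).card + (edgesIn G (S ∩ T)).card := by
      have : (edgesIn G S).card + (edgesIn G T).card ≤
        (edgesIn G (S ∪ T)).card + (edgesIn G (S ∩ T)).card := by omega
      exact_mod_cast this
    linarith
  · intro S
    have h1 := hdiff S
    rw [Finset.sum_sub_distrib, Finset.sum_sub_distrib]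
    linarith
  · intro x
    have : ((2 * m x : ℕ) : ℝ) ≤ G.degree x := by exact_mod_cast hm x
    push_cast at this
    linarith
  · intro S
    -- the complement has a nonnegative share
    have h1 := hdiff S
    have h2 := hdiff Finset.univ
    rw [Finset.compl_univ, Finset.sum_empty] at h2
    have h0 : edgesIn G (∅ : Finset V) = ∅ := by
      rw [Finset.eq_empty_iff_forall_notMem]
      intro e
      induction e using Sym2.ind with
      | _ x y =>
        rw [mk_mem_edgesIn]
        intro h
        exact absurd h.2.1 (Finset.notMem_empty _)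
    rw [h0, Finset.card_empty] at h2
    have h3 : (edgesIn G S).card + (edgesIn G Sᶜ).card ≤ (edgesIn G Finset.univ).card := by
      rw [← Finset.card_union_of_disjoint]
      · exact Finset.card_le_card (Finset.union_subset (edgesIn_mono G (Finset.subset_univ _))
          (edgesIn_mono G (Finset.subset_univ _)))
      · rw [Finset.disjoint_left]
        intro e
        induction e using Sym2.ind with
        | _ x y =>
          rw [mk_mem_edgesIn, mk_mem_edgesIn]
          intro h h'
          exact (Finset.mem_compl.1 h'.2.1) h.2.1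
    have h3' : ((edgesIn G S).card + (edgesIn G Sᶜ).card : ℝ) ≤ (edgesIn G Finset.univ).card := by
      exact_mod_cast h3
    have h4 : ∑ x, (G.degree x : ℝ) = ∑ x ∈ S, (G.degree x : ℝ) + ∑ x ∈ Sᶜ, (G.degree x : ℝ) :=
      (Finset.sum_add_sum_compl S _).symm
    have h5 : ∑ x, (2 * m x : ℝ) = ∑ x ∈ S, (2 * m x : ℝ) + ∑ x ∈ Sᶜ, (2 * m x : ℝ) :=
      (Finset.sum_add_sum_compl S _).symm
    have h6 : ∑ x ∈ Sᶜ, (2 * m x : ℝ) ≤ ∑ x ∈ Sᶜ, (G.degree x : ℝ) := by
      apply Finset.sum_le_sum
      intro x _
      have : ((2 * m x : ℕ) : ℝ) ≤ G.degree x := by exact_mod_cast hm x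
      push_cast at this
      linarith
    push_cast at h2
    rw [h5]
    linarith

open scoped Classical in
/-- the vertex sets `W` in which every `x ∈ W` has at least `k x` neighbours -/
noncomputable def minDegFam (k : V → ℕ) : Finset (Finset V) :=
  Finset.univ.filter (fun W => ∀ x ∈ W, k x ≤ (W.filter (fun y => G.Adj x y)).card)

theorem minDegFam_eq (k : V → ℕ) :
    minDegFam G k = degFam (fun x y => if G.Adj x y then (1 : ℝ) else 0) (fun x => (k x : ℝ)) := by
  ext W
  rw [mem_degFam]
  unfold minDegFam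
  rw [Finset.mem_filter]
  simp only [Finset.mem_univ, true_and]
  unfold deg
  simp only [Finset.sum_boole, Nat.cast_le]

theorem potential_minDegFam (k : V → ℕ) (hk : ∀ x, k x ≤ 2) :
    ∃ (p : Finset V → ℝ) (w : V → ℝ), Potential (minDegFam G k) p w := by
  rw [minDegFam_eq]
  refine ⟨_, _, potential_degFam ?_ ?_ ?_⟩
  · intro x y
    split_ifs <;> norm_num
  · intro x y
    simp only [SimpleGraph.adj_comm]
  · intro S x _ hlt
    unfold deg at hlt ⊢
    rw [Finset.sum_boole] at hlt ⊢
    have h0 : (if G.Adj x x then (1 : ℝ) else 0) = 0 := if_neg (G.loopless.irrefl x)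
    simp only [h0]
    have hlt' : ((S.filter (fun y => G.Adj x y)).card : ℝ) < (k x : ℝ) := hlt
    have h1 : (S.filter (fun y => G.Adj x y)).card < k x := by exact_mod_cast hlt'
    have h2 := hk x
    have h3 : 2 * (S.filter (fun y => G.Adj x y)).card ≤ k x := by omega
    have h4 : ((2 * (S.filter (fun y => G.Adj x y)).card : ℕ) : ℝ) ≤ k x := by exact_mod_cast h3
    push_cast at h4
    linarith

end Pool.Agent.R142.UC
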