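import Pool.Agent.R142.UC.Pot

/-!
# Two classes of union-closed families with a symmetric potential
-/

open Finset

namespace Pool.Agent.R142.UC

variable {V : Type*} [DecidableEq V]

/-! ### what is proved about a family -/

/-- `F` separates the elements of its members. -/
def Separating (F : Finset (Finset V)) : Prop :=
  ∀ x ∈ F.sup id, ∀ y ∈ F.sup id, x ≠ y → ∃ W ∈ F, ¬ (x ∈ W ↔ y ∈ W)

/-- Frankl's conjecture and Poonen's strengthening for `F` -/
def FranklPoonen (F : Finset (Finset V)) : Prop :=
  ((∃ W ∈ F, W.Nonempty) → ∃ x, F.card ≤ 2 * freq F x) ∧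
  (Separating F → F ≠ (F.sup id).powerset → ∃ x, F.card < 2 * freq F x)

theorem freq_of_compl {F : Finset (Finset V)} (hc : ∀ W ∈ F, F.sup id \ W ∈ F) (x : V)
    (hx : x ∈ F.sup id) : F.card ≤ 2 * freq F x := by
  have h1 : (F.filter (fun W => ¬ x ∈ W)).card ≤ (F.filter (fun W => x ∈ W)).card := by
    apply Finset.card_le_card_of_injOn (fun W => F.sup id \ W)
    · intro W hW
      have hW' := Finset.mem_filter.1 (Finset.mem_coe.1 hW)
      exact Finset.mem_coe.2 (Finset.mem_filter.2 ⟨hc W hW'.1, Finset.mem_sdiff.2 ⟨hx, hW'.2⟩⟩)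
    · intro W hW W' hW' heq
      have h1 := Finset.mem_filter.1 (Finset.mem_coe.1 hW)
      have h2 := Finset.mem_filter.1 (Finset.mem_coe.1 hW')
      simp only at heq
      rw [← Finset.sdiff_sdiff_eq_self (subset_sup F h1.1), heq,
        Finset.sdiff_sdiff_eq_self (subset_sup F h2.1)]
  have h2 := Finset.card_filter_add_card_filter_not (s := F) (fun W => x ∈ W)
  unfold freq
  omega

theorem franklPoonen {F : Finset (Finset V)} {p : Finset V → ℝ} {w : V → ℝ}
    (h : Potential F p w) (F' : Finset (Finset V)) (hF : F' ⊆ F)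
    (hu : ∀ W ∈ F', ∀ X ∈ F, W ∪ X ∈ F') (hne : F'.Nonempty) : FranklPoonen F' := by
  refine ⟨?_, fun hs hp => poonen h F' hF hu hne hs hp⟩
  rintro ⟨W, hW, x, hx⟩
  rcases main h F' hF hu hne with ⟨x, hx⟩ | ⟨heq, hc⟩
  · exact ⟨x, hx.le⟩
  · subst heq
    exact ⟨x, freq_of_compl hc x (subset_sup F' hW hx)⟩

/-! ### symmetric submodular functions -/

section submodular

variable [Fintype V]

/-- `c` is a symmetric submodular function with `c ∅ = 0`. -/
structure SymmSubmodular (c : Finset V → ℝ) : Prop where
  empty : c ∅ = 0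
  symm : ∀ S, c Sᶜ = c S
  submod : ∀ S T, c (S ∪ T) + c (S ∩ T) ≤ c S + c T

open scoped Classical in
/-- The sets `W` such that `c W - w(W) ≤ c S - w(S)` for all `S ⊆ W`. -/
noncomputable def stable (c : Finset V → ℝ) (w : V → ℝ) : Finset (Finset V) :=
  Finset.univ.filter (fun W => ∀ S ⊆ W, c W - ∑ x ∈ W, w x ≤ c S - ∑ x ∈ S, w x)

theorem mem_stable (c : Finset V → ℝ) (w : V → ℝ) (W : Finset V) :
    W ∈ stable c w ↔ ∀ S ⊆ W, c W - ∑ x ∈ W, w x ≤ c S - ∑ x ∈ S, w x := by
  unfold stable
  simp

/-- the same for a general supermodular function -/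
theorem potential_of_supermodular (p : Finset V → ℝ) (w : V → ℝ) (F : Finset (Finset V))
    (hF : ∀ W, W ∈ F ↔ ∀ S ⊆ W, p S ≤ p W) (h0 : p ∅ = 0)
    (hsup : ∀ S T, p S + p T ≤ p (S ∪ T) + p (S ∩ T))
    (hdiff : ∀ S, p S - p Sᶜ = ∑ x ∈ S, w x - ∑ x ∈ Sᶜ, w x)
    (hw : ∀ x, 0 ≤ w x) (htop : ∀ S, p S ≤ p Finset.univ) : Potential F p w := by
  have hempty : ∅ ∈ F := by
    rw [hF]
    intro S hS
    rw [Finset.subset_empty.1 hS]
  have hunion : ∀ X ∈ F, ∀ Y ∈ F, X ∪ Y ∈ F := by
    intro X hX Y hY
    rw [hF] at hX hY ⊢
    intro S hS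
    have h1 := hsup S X
    have h2 := hX (S ∩ X) Finset.inter_subset_right
    have h3 := hsup (S ∪ X) Y
    have h4 := hY ((S ∪ X) ∩ Y) Finset.inter_subset_right
    have h5 : S ∪ X ∪ Y = X ∪ Y := by
      rw [Finset.union_assoc]
      exact Finset.union_eq_right.2 hS
    rw [h5] at h3
    linarith
  have htopm : F.sup id = Finset.univ := by
    apply Finset.eq_univ_of_forall
    intro x
    have : (Finset.univ : Finset V) ∈ F := by
      rw [hF]
      intro S _
      exact htop S
    exact subset_sup F this (Finset.mem_univ x)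
  -- a maximiser of largest cardinality
  have key : ∀ S : Finset V, ∃ M ∈ F, M ⊆ S ∧ p S ≤ p M ∧ (p S = p M → M = S) := by
    intro S
    obtain ⟨M, hM, hmax⟩ := Finset.exists_max_image S.powerset
      (fun A => toLex (p A, A.card)) ⟨S, Finset.mem_powerset.2 (Finset.Subset.refl _)⟩
    have hMS := Finset.mem_powerset.1 hM
    have hmax' : ∀ A, A ⊆ S → p A ≤ p M ∧ (p A = p M → A.card ≤ M.card) := by
      intro A hA
      have h1 := hmax A (Finset.mem_powerset.2 hA)
      rw [Prod.Lex.toLex_le_toLex] at h1
      rcases h1 with h1 | ⟨h1, h2⟩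
      · exact ⟨h1.le, fun h => absurd h h1.ne⟩
      · exact ⟨h1.le, fun _ => h2⟩
    refine ⟨M, ?_, hMS, (hmax' S (Finset.Subset.refl _)).1, ?_⟩
    · rw [hF]
      intro A hA
      exact (hmax' A (hA.trans hMS)).1
    · intro h
      exact Finset.eq_of_subset_of_card_le hMS ((hmax' S (Finset.Subset.refl _)).2 h)
  have hcm : ∀ S, core F S ∈ F := fun S =>
    sup_mem _ hempty hunion _ (Finset.filter_subset _ _)
  exact
    { empty_mem := hempty
      union_mem := hunion
      empty := h0
      mono := fun A _ X hX h => (hF X).1 hX A h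
      le_core := by
        intro S _
        obtain ⟨M, hM, hMS, h1, _⟩ := key S
        exact h1.trans ((hF _).1 (hcm S) M (subset_core F hM hMS))
      neg := by
        intro S _ hne hc
        obtain ⟨M, hM, hMS, h1, h2⟩ := key S
        have h3 := subset_core F hM hMS
        rw [hc, Finset.subset_empty] at h3
        subst h3
        rw [h0] at h1 h2
        rcases h1.lt_or_eq with h | h
        · exact h
        · rw [← h2 h] at hne
          exact absurd hne (by simp)
      diff := by
        intro W _
        rw [htopm, ← Finset.compl_eq_univ_sdiff]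
        exact hdiff W
      nonneg := fun x _ => hw x }

theorem potential_stable (c : Finset V → ℝ) (w : V → ℝ) (hc : SymmSubmodular c)
    (hw : ∀ x, 0 ≤ w x) : Potential (stable c w) (fun S => ∑ x ∈ S, w x - c S) w := by
  apply potential_of_supermodular
  · intro W
    rw [mem_stable]
    constructor
    · intro h S hS
      have := h S hS
      linarith
    · intro h S hS
      have := h S hS
      linarith
  · simp [hc.empty]
  · intro S T
    have h1 := hc.submod S T
    have h2 := Finset.sum_union_inter (s₁ := S) (s₂ := T) (f := w)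
    linarith
  · intro S
    simp only [hc.symm S]
    ring
  · exact hw
  · intro S
    have h1 : c Finset.univ = 0 := by
      rw [← Finset.compl_empty, hc.symm, hc.empty]
    have h2 := hc.submod S Sᶜ
    rw [Finset.union_compl, Finset.inter_compl, hc.symm, h1, hc.empty] at h2
    have h3 : ∑ x ∈ S, w x ≤ ∑ x, w x :=
      Finset.sum_le_sum_of_subset_of_nonneg (Finset.subset_univ _) (fun x _ _ => hw x)
    simp only [h1]
    linarith

end submodular

/-! ### degree conditions -/

section degree

variable [Fintype V]

/-- the degree of `x` in `S` for the weights `a` of the pairs -/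
def deg (a : V → V → ℝ) (S : Finset V) (x : V) : ℝ := ∑ y ∈ S, a x y

open scoped Classical in
/-- The sets `W` in which every `x ∈ W` has degree at least `θ x`. -/
noncomputable def degFam (a : V → V → ℝ) (θ : V → ℝ) : Finset (Finset V) :=
  Finset.univ.filter (fun W => ∀ x ∈ W, θ x ≤ deg a W x)

theorem mem_degFam (a : V → V → ℝ) (θ : V → ℝ) (W : Finset V) :
    W ∈ degFam a θ ↔ ∀ x ∈ W, θ x ≤ deg a W x := by
  unfold degFam
  simp

/-- A degree below the bound is at most half the bound (up to the diagonal entry). -/
def Gap (a : V → V → ℝ) (θ : V → ℝ) : Prop :=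
  ∀ S : Finset V, ∀ x ∈ S, deg a S x < θ x → 2 * deg a S x ≤ θ x + a x x

/-- the potential -/
def pot (a : V → V → ℝ) (θ : V → ℝ) (S : Finset V) : ℝ := ∑ x ∈ S, (deg a S x - θ x)

omit [Fintype V] in
theorem deg_mono {a : V → V → ℝ} (ha : ∀ x y, 0 ≤ a x y) {S T : Finset V} (h : S ⊆ T) (x : V) :
    deg a S x ≤ deg a T x :=
  Finset.sum_le_sum_of_subset_of_nonneg h (fun y _ _ => ha x y)

omit [Fintype V] in
theorem pot_erase {a : V → V → ℝ} {θ : V → ℝ} (hs : ∀ x y, a x y = a y x) {S : Finset V} {x : V}
    (hx : x ∈ S) : pot a θ S = pot a θ (S.erase x) + (2 * deg a S x - a x x - θ x) := by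
  unfold pot
  rw [← Finset.add_sum_erase S _ hx]
  have h1 : ∑ y ∈ S.erase x, (deg a S y - θ y) =
      ∑ y ∈ S.erase x, (deg a (S.erase x) y - θ y) + ∑ y ∈ S.erase x, a x y := by
    rw [← Finset.sum_add_distrib]
    apply Finset.sum_congr rfl
    intro y _
    have : deg a S y = a y x + deg a (S.erase x) y := by
      unfold deg
      rw [Finset.add_sum_erase S _ hx]
    rw [this, hs y x]
    ring
  have h2 : deg a S x = a x x + ∑ y ∈ S.erase x, a x y := by
    unfold deg
    rw [Finset.add_sum_erase S _ hx]
  rw [h1]
  linarith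

omit [Fintype V] in
/-- potential difference of complementary sets -/
theorem pot_sub_pot {a : V → V → ℝ} {θ : V → ℝ} (hs : ∀ x y, a x y = a y x) {W T : Finset V}
    (h : W ⊆ T) : pot a θ W - pot a θ (T \ W) =
      ∑ x ∈ W, (deg a T x - θ x) - ∑ x ∈ T \ W, (deg a T x - θ x) := by
  have hdeg : ∀ x, deg a T x = deg a (T \ W) x + deg a W x := by
    intro x
    unfold deg
    rw [Finset.sum_sdiff h]
  have h1 : ∑ x ∈ W, (deg a T x - θ x) = pot a θ W + ∑ x ∈ W, deg a (T \ W) x := by
    unfold pot
    rw [← Finset.sum_add_distrib]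
    apply Finset.sum_congr rfl
    intro x _
    rw [hdeg x]
    ring
  have h2 : ∑ x ∈ T \ W, (deg a T x - θ x) = pot a θ (T \ W) + ∑ x ∈ T \ W, deg a W x := by
    unfold pot
    rw [← Finset.sum_add_distrib]
    apply Finset.sum_congr rfl
    intro x _
    rw [hdeg x]
    ring
  have h3 : ∑ x ∈ W, deg a (T \ W) x = ∑ x ∈ T \ W, deg a W x := by
    unfold deg
    rw [Finset.sum_comm]
    apply Finset.sum_congr rfl
    intro x _
    apply Finset.sum_congr rfl
    intro y _
    exact hs y x
  rw [h1, h2, h3]
  ring

theorem potential_degFam {a : V → V → ℝ} {θ : V → ℝ} (ha : ∀ x y, 0 ≤ a x y)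
    (hs : ∀ x y, a x y = a y x) (hgap : Gap a θ) :
    Potential (degFam a θ) (pot a θ) (fun x => deg a ((degFam a θ).sup id) x - θ x) := by
  have hempty : ∅ ∈ degFam a θ := by
    rw [mem_degFam]
    intro x hx
    exact absurd hx (Finset.notMem_empty _)
  have hunion : ∀ X ∈ degFam a θ, ∀ Y ∈ degFam a θ, X ∪ Y ∈ degFam a θ := by
    intro X hX Y hY
    rw [mem_degFam] at *
    intro x hx
    rcases Finset.mem_union.1 hx with h | h
    · exact (hX x h).trans (deg_mono ha Finset.subset_union_left x)
    · exact (hY x h).trans (deg_mono ha Finset.subset_union_right x)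
  have hcm : ∀ S, core (degFam a θ) S ∈ degFam a θ := fun S =>
    sup_mem _ hempty hunion _ (Finset.filter_subset _ _)
  have hcg : ∀ S, S ∈ degFam a θ → core (degFam a θ) S = S := fun S hS =>
    Finset.Subset.antisymm (core_subset _ S) (subset_core _ hS (Finset.Subset.refl _))
  have hce : ∀ S x, deg a S x < θ x →
      core (degFam a θ) (S.erase x) = core (degFam a θ) S := by
    intro S x hd
    apply Finset.Subset.antisymm
    · exact subset_core _ (hcm _) ((core_subset _ _).trans (Finset.erase_subset _ _))
    · apply subset_core _ (hcm _)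
      intro y hy
      refine Finset.mem_erase.2 ⟨?_, core_subset _ _ hy⟩
      rintro rfl
      have h1 := (mem_degFam a θ _).1 (hcm S)
      have h2 := h1 y hy
      have h3 := deg_mono ha (core_subset (degFam a θ) S) y
      linarith
  have hp0 : pot a θ (∅ : Finset V) = 0 := by unfold pot; simp
  have hle : ∀ n : ℕ, ∀ S : Finset V, S.card = n → pot a θ S ≤ pot a θ (core (degFam a θ) S) := by
    intro n
    induction n with
    | zero =>
      intro S hS
      rw [Finset.card_eq_zero] at hS
      subst hS
      rw [hcg ∅ hempty]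
    | succ n ih =>
      intro S hS
      by_cases h : S ∈ degFam a θ
      · rw [hcg S h]
      · rw [mem_degFam] at h
        push Not at h
        obtain ⟨x, hx, hd⟩ := h
        have h1 := ih (S.erase x) (by rw [Finset.card_erase_of_mem hx, hS]; rfl)
        rw [hce S x hd] at h1
        have h2 := pot_erase (θ := θ) hs hx
        have h3 := hgap S x hx hd
        linarith
  have hneg : ∀ n : ℕ, ∀ S : Finset V, S.card = n → S.Nonempty →
      core (degFam a θ) S = ∅ → pot a θ S < 0 := by
    intro n
    induction n with
    | zero =>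
      intro S hS hne
      rw [Finset.card_eq_zero] at hS
      subst hS
      exact absurd hne (by simp)
    | succ n ih =>
      intro S hS hne hc
      by_cases h : S ∈ degFam a θ
      · rw [hcg S h] at hc
        subst hc
        exact absurd hne (by simp)
      · rw [mem_degFam] at h
        push Not at h
        obtain ⟨x, hx, hd⟩ := h
        have h2 := pot_erase (θ := θ) hs hx
        have h3 := hgap S x hx hd
        by_cases hne' : (S.erase x).Nonempty
        · have h1 := ih (S.erase x) (by rw [Finset.card_erase_of_mem hx, hS]; rfl) hne'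
            (by rw [hce S x hd]; exact hc)
          linarith
        · rw [Finset.not_nonempty_iff_eq_empty] at hne'
          have hS1 : S = {x} := by
            apply Finset.Subset.antisymm
            · intro y hy
              by_contra hyx
              rw [Finset.mem_singleton] at hyx
              have : y ∈ S.erase x := Finset.mem_erase.2 ⟨hyx, hy⟩
              rw [hne'] at this
              exact absurd this (Finset.notMem_empty _)
            · intro y hy
              rw [Finset.mem_singleton] at hy
              subst hy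
              exact hx
          have h4 : deg a S x = a x x := by
            rw [hS1]
            unfold deg
            simp
          rw [hne', hp0] at h2
          linarith
  exact
    { empty_mem := hempty
      union_mem := hunion
      empty := hp0
      mono := by
        intro A _ X hX h
        rw [mem_degFam] at hX
        unfold pot
        rw [← Finset.sum_sdiff h]
        have h1 : 0 ≤ ∑ x ∈ X \ A, (deg a X x - θ x) := by
          apply Finset.sum_nonneg
          intro x hx
          have := hX x (Finset.mem_sdiff.1 hx).1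
          linarith
        have h2 : ∑ x ∈ A, (deg a A x - θ x) ≤ ∑ x ∈ A, (deg a X x - θ x) := by
          apply Finset.sum_le_sum
          intro x _
          have := deg_mono ha h x
          linarith
        linarith
      le_core := fun S _ => hle _ S rfl
      neg := fun S _ hne hc => hneg _ S rfl hne hc
      diff := fun W hW => pot_sub_pot hs (subset_sup _ hW)
      nonneg := by
        intro x hx
        have h1 : (degFam a θ).sup id ∈ degFam a θ :=
          sup_mem _ hempty hunion _ (Finset.Subset.refl _)
        have := (mem_degFam a θ _).1 h1 x hx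
        linarith }

end degree

end Pool.Agent.R142.UC
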