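import Mathlib

/-!
# Members of a union-closed family and the members disjoint from them
-/

open Finset

namespace Pool.Agent.R142.UC

variable {α : Type*} [DecidableEq α]

/-- inclusion-exclusion: the indicator of `B ⊆ W` -/
theorem indicator_subset (B W : Finset α) :
    (if B ⊆ W then (1 : ℚ) else 0) =
      ∑ C ∈ B.powerset, (-1) ^ C.card * (if Disjoint C W then (1 : ℚ) else 0) := by
  have h1 : (if B ⊆ W then (1 : ℚ) else 0) =
      ∏ x ∈ B, ((-(if x ∈ W then (0 : ℚ) else 1)) + 1) := by
    by_cases h : B ⊆ W
    · rw [if_pos h]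
      symm
      apply Finset.prod_eq_one
      intro x hx
      rw [if_pos (h hx)]
      ring
    · rw [if_neg h]
      obtain ⟨x, hx, hxW⟩ := Finset.not_subset.1 h
      symm
      apply Finset.prod_eq_zero hx
      rw [if_neg hxW]
      ring
  rw [h1, Finset.prod_add]
  apply Finset.sum_congr rfl
  intro C _
  rw [Finset.prod_const_one, mul_one, Finset.prod_neg]
  congr 1
  by_cases h : Disjoint C W
  · rw [if_pos h]
    apply Finset.prod_eq_one
    intro x hx
    rw [if_neg (Finset.disjoint_left.1 h hx)]
  · rw [if_neg h]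
    obtain ⟨x, hx, hxW⟩ := Finset.not_disjoint_iff.1 h
    apply Finset.prod_eq_zero hx
    rw [if_pos hxW]

/-- A form of the theorem of Ahlswede and Daykin for union-closed families. -/
theorem card_disjoint_le (F F' A : Finset (Finset α)) (hF' : F' ⊆ F) (hA : A ⊆ F)
    (hu : ∀ W ∈ F', ∀ X ∈ F, W ∪ X ∈ F') :
    (F'.filter (fun W => ∃ X ∈ A, Disjoint X W)).card ≤
      (F'.filter (fun Y => ∃ X ∈ A, X ⊆ Y)).card := by
  set S := F'.filter (fun W => ∃ X ∈ A, Disjoint X W) with hS
  set U := F'.filter (fun Y => ∃ X ∈ A, X ⊆ Y) with hU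
  let Φ : (S → ℚ) →ₗ[ℚ] (U → ℚ) :=
    { toFun := fun v Y => ∑ W : S, if (W : Finset α) ⊆ (Y : Finset α) then v W else 0
      map_add' := by
        intro v w
        funext Y
        simp only [Pi.add_apply]
        rw [← Finset.sum_add_distrib]
        apply Finset.sum_congr rfl
        intro W _
        split_ifs <;> simp
      map_smul' := by
        intro c v
        funext Y
        simp only [Pi.smul_apply, smul_eq_mul, RingHom.id_apply]
        rw [Finset.mul_sum]
        apply Finset.sum_congr rfl
        intro W _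
        split_ifs <;> simp }
  have hinj : Function.Injective Φ := by
    rw [← LinearMap.ker_eq_bot, LinearMap.ker_eq_bot']
    intro v hv
    -- the sums vanish for every set containing a member of `A`
    have hG : ∀ T : Finset α, (∃ X ∈ A, X ⊆ T) →
        ∑ W : S, (if (W : Finset α) ⊆ T then v W else 0) = 0 := by
      rintro T ⟨X, hX, hXT⟩
      by_cases hne : ∃ W ∈ F', W ⊆ T
      · obtain ⟨W0, hW0, hW0T⟩ := hne
        -- the union of all members inside `T`
        set T0 : Finset α := (F'.filter (fun W => W ⊆ T)).sup id with hT0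
        have hT0T : T0 ⊆ T := by
          apply Finset.sup_le
          intro W hW
          exact (Finset.mem_filter.1 hW).2
        have hT0F : T0 ∈ F' := by
          have key : ∀ B : Finset (Finset α), B ⊆ F' → B.Nonempty → B.sup id ∈ F' := by
            intro B
            induction B using Finset.induction_on with
            | empty => intro _ h; exact absurd h (by simp)
            | insert b B hb ih =>
              intro hsub _
              rw [Finset.sup_insert, id]
              by_cases hB : B.Nonempty
              · have h1 := ih (fun x hx => hsub (Finset.mem_insert_of_mem hx)) hB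
                exact hu b (hsub (Finset.mem_insert_self _ _)) _ (hF' h1)
              · rw [Finset.not_nonempty_iff_eq_empty] at hB
                subst hB
                simpa using hsub (Finset.mem_insert_self _ _)
          exact key _ (Finset.filter_subset _ _) ⟨W0, Finset.mem_filter.2 ⟨hW0, hW0T⟩⟩
        have hT1 : T0 ∪ X ∈ F' := hu _ hT0F _ (hA hX)
        have hT1T : T0 ∪ X ⊆ T := Finset.union_subset hT0T hXT
        have hT1U : T0 ∪ X ∈ U := Finset.mem_filter.2 ⟨hT1, X, hX, Finset.subset_union_right⟩
        have h := congrFun hv ⟨_, hT1U⟩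
        refine Eq.trans ?_ h
        change _ = ∑ W : S, if (W : Finset α) ⊆ T0 ∪ X then v W else 0
        apply Finset.sum_congr rfl
        intro W _
        have hiff : (W : Finset α) ⊆ T ↔ (W : Finset α) ⊆ T0 ∪ X := by
          constructor
          · intro hW
            have hWF : (W : Finset α) ∈ F' := (Finset.mem_filter.1 W.2).1
            have : (W : Finset α) ⊆ T0 :=
              Finset.le_sup (f := id) (Finset.mem_filter.2 ⟨hWF, hW⟩)
            exact this.trans Finset.subset_union_left
          · intro hW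
            exact hW.trans hT1T
        simp only [hiff]
      · push Not at hne
        apply Finset.sum_eq_zero
        intro W _
        rw [if_neg (hne _ (Finset.mem_filter.1 W.2).1)]
    -- the sums over the supersets vanish
    set M : Finset α := (F ∪ F').sup id with hM
    have hMsub : ∀ W ∈ F ∪ F', W ⊆ M := fun W hW => Finset.le_sup (f := id) hW
    have hH : ∀ B : Finset α, (∃ X ∈ A, Disjoint X B) →
        ∑ W : S, (if B ⊆ (W : Finset α) then v W else 0) = 0 := by
      rintro B ⟨X, hX, hXB⟩
      have h1 : ∑ W : S, (if B ⊆ (W : Finset α) then v W else 0) =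
          ∑ W : S, ∑ C ∈ B.powerset, (-1) ^ C.card *
            (if (W : Finset α) ⊆ M \ C then v W else 0) := by
        apply Finset.sum_congr rfl
        intro W _
        have h2 := indicator_subset B (W : Finset α)
        have h3 : (if B ⊆ (W : Finset α) then v W else 0) =
            (if B ⊆ (W : Finset α) then (1 : ℚ) else 0) * v W := by
          split_ifs <;> simp
        rw [h3, h2, Finset.sum_mul]
        apply Finset.sum_congr rfl
        intro C _
        rw [mul_assoc]
        congr 1
        have hWM : (W : Finset α) ⊆ M :=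
          hMsub _ (Finset.mem_union_right _ (Finset.mem_filter.1 W.2).1)
        have hiff : Disjoint C (W : Finset α) ↔ (W : Finset α) ⊆ M \ C := by
          rw [Finset.subset_sdiff]
          exact ⟨fun h => ⟨hWM, h.symm⟩, fun h => h.2.symm⟩
        by_cases h : Disjoint C (W : Finset α)
        · rw [if_pos h, if_pos (hiff.1 h), one_mul]
        · rw [if_neg h, if_neg (fun h' => h (hiff.2 h')), zero_mul]
      rw [h1, Finset.sum_comm]
      apply Finset.sum_eq_zero
      intro C hC
      rw [← Finset.mul_sum, hG (M \ C) ⟨X, hX, ?_⟩, mul_zero]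
      rw [Finset.subset_sdiff]
      exact ⟨hMsub _ (Finset.mem_union_left _ (hA hX)),
        hXB.mono_right (Finset.mem_powerset.1 hC)⟩
    -- a maximal element of the support
    by_contra hne
    have hex : ∃ W : S, v W ≠ 0 := by
      by_contra h
      push Not at h
      exact hne (funext h)
    obtain ⟨W0, hW0⟩ := hex
    obtain ⟨W1, hW1, hmax⟩ := Finset.exists_max_image
      (Finset.univ.filter (fun W : S => v W ≠ 0)) (fun W => (W : Finset α).card)
      ⟨W0, Finset.mem_filter.2 ⟨Finset.mem_univ _, hW0⟩⟩
    have hv1 : v W1 ≠ 0 := (Finset.mem_filter.1 hW1).2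
    have h4 := hH (W1 : Finset α) (Finset.mem_filter.1 W1.2).2
    rw [Finset.sum_eq_single W1] at h4
    · rw [if_pos (Finset.Subset.refl _)] at h4
      exact hv1 h4
    · intro W _ hne'
      by_cases hsub : (W1 : Finset α) ⊆ (W : Finset α)
      · rw [if_pos hsub]
        by_contra hvW
        have hcard := hmax W (Finset.mem_filter.2 ⟨Finset.mem_univ _, hvW⟩)
        have heq := Finset.eq_of_subset_of_card_le hsub hcard
        exact hne' (Subtype.ext heq.symm)
      · rw [if_neg hsub]
    · intro h
      exact absurd (Finset.mem_univ _) h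
  have h := LinearMap.finrank_le_finrank_of_injective hinj
  rw [Module.finrank_fintype_fun_eq_card, Module.finrank_fintype_fun_eq_card,
    Fintype.card_coe, Fintype.card_coe] at h
  exact h

/-- the largest member of `F` disjoint from `W` -/
def star (F : Finset (Finset α)) (W : Finset α) : Finset α :=
  (F.filter (fun X => Disjoint X W)).sup id

theorem star_disjoint (F : Finset (Finset α)) (W : Finset α) : Disjoint (star F W) W := by
  unfold star
  rw [Finset.disjoint_sup_left]
  intro X hX
  exact (Finset.mem_filter.1 hX).2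

theorem subset_star (F : Finset (Finset α)) (W X : Finset α) (hX : X ∈ F) (h : Disjoint X W) :
    X ⊆ star F W :=
  Finset.le_sup (f := id) (Finset.mem_filter.2 ⟨hX, h⟩)

theorem sup_mem (F : Finset (Finset α)) (h0 : ∅ ∈ F) (hu : ∀ X ∈ F, ∀ Y ∈ F, X ∪ Y ∈ F)
    (B : Finset (Finset α)) (hB : B ⊆ F) : B.sup id ∈ F := by
  induction B using Finset.induction_on with
  | empty => simpa using h0
  | insert b B hb ih =>
    rw [Finset.sup_insert, id]
    exact hu b (hB (Finset.mem_insert_self _ _)) _
      (ih (fun x hx => hB (Finset.mem_insert_of_mem hx)))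

theorem star_mem (F : Finset (Finset α)) (h0 : ∅ ∈ F) (hu : ∀ X ∈ F, ∀ Y ∈ F, X ∪ Y ∈ F)
    (W : Finset α) : star F W ∈ F :=
  sup_mem F h0 hu _ (Finset.filter_subset _ _)

/-- **Permutation theorem**: the members `W` of `F'` can be permuted such that the image of `W`
contains all members of `F` disjoint from `W`. -/
theorem exists_perm (F F' : Finset (Finset α)) (h0 : ∅ ∈ F)
    (hu : ∀ X ∈ F, ∀ Y ∈ F, X ∪ Y ∈ F) (hF' : F' ⊆ F)
    (hu' : ∀ W ∈ F', ∀ X ∈ F, W ∪ X ∈ F') :
    ∃ ψ : Equiv.Perm {W // W ∈ F'}, ∀ W : {W // W ∈ F'}, ∀ X ∈ F,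
      Disjoint X W.1 → X ⊆ (ψ W).1 := by
  let t : {W // W ∈ F'} → Finset {W // W ∈ F'} :=
    fun W => Finset.univ.filter (fun Y => star F W.1 ⊆ Y.1)
  have hall : ∀ s : Finset {W // W ∈ F'}, s.card ≤ (s.biUnion t).card := by
    intro s
    obtain ⟨A, hA⟩ : ∃ A : Finset (Finset α), A = (s.image Subtype.val).image (star F) :=
      ⟨_, rfl⟩
    have hAF : A ⊆ F := by
      intro X hX
      rw [hA] at hX
      obtain ⟨W, _, rfl⟩ := Finset.mem_image.1 hX
      exact star_mem F h0 hu _
    have h := card_disjoint_le F F' A hF' hAF hu'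
    have h1 : s.card ≤ (F'.filter (fun W => ∃ X ∈ A, Disjoint X W)).card := by
      rw [← Finset.card_image_of_injective s Subtype.val_injective]
      apply Finset.card_le_card
      intro W hW
      obtain ⟨W', hW', rfl⟩ := Finset.mem_image.1 hW
      refine Finset.mem_filter.2 ⟨W'.2, star F W'.1, ?_, star_disjoint F _⟩
      rw [hA]
      exact Finset.mem_image_of_mem _ hW
    have h2 : (F'.filter (fun Y => ∃ X ∈ A, X ⊆ Y)).card ≤ (s.biUnion t).card := by
      rw [← Finset.card_image_of_injective (s.biUnion t) Subtype.val_injective]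
      apply Finset.card_le_card
      intro Y hY
      obtain ⟨hYF, X, hX, hXY⟩ := Finset.mem_filter.1 hY
      rw [hA] at hX
      obtain ⟨W, hW, rfl⟩ := Finset.mem_image.1 hX
      obtain ⟨W', hW', rfl⟩ := Finset.mem_image.1 hW
      exact Finset.mem_image.2 ⟨⟨Y, hYF⟩, Finset.mem_biUnion.2 ⟨W', hW',
        Finset.mem_filter.2 ⟨Finset.mem_univ _, hXY⟩⟩, rfl⟩
    exact h1.trans (h.trans h2)
  obtain ⟨f, hf, hft⟩ := (Finset.all_card_le_biUnion_card_iff_exists_injective t).1 hall
  refine ⟨Equiv.ofBijective f (Finite.injective_iff_bijective.1 hf), ?_⟩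
  intro W X hX hd
  have h1 : star F W.1 ⊆ (f W).1 := (Finset.mem_filter.1 (hft W)).2
  exact (subset_star F _ _ hX hd).trans h1

/-- the inequality for monotone functions -/
theorem sum_star_le (F F' : Finset (Finset α)) (h0 : ∅ ∈ F)
    (hu : ∀ X ∈ F, ∀ Y ∈ F, X ∪ Y ∈ F) (hF' : F' ⊆ F)
    (hu' : ∀ W ∈ F', ∀ X ∈ F, W ∪ X ∈ F') (f : Finset α → ℝ)
    (hf : ∀ X ∈ F, ∀ Y ∈ F', X ⊆ Y → f X ≤ f Y) :
    ∑ W ∈ F', f (star F W) ≤ ∑ W ∈ F', f W := by
  obtain ⟨ψ, hψ⟩ := exists_perm F F' h0 hu hF' hu'
  rw [← Finset.sum_coe_sort F' (fun W => f (star F W)), ← Finset.sum_coe_sort F' (fun W => f W),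
    ← Equiv.sum_comp ψ (fun W : {W // W ∈ F'} => f W.1)]
  apply Finset.sum_le_sum
  intro W _
  exact hf _ (star_mem F h0 hu _) _ (ψ W).2
    (hψ W _ (star_mem F h0 hu _) (star_disjoint F _))

end Pool.Agent.R142.UC
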