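import Pool.Agent.R142.UC.Perm

/-!
# Union-closed families with a symmetric potential
-/

open Finset

namespace Pool.Agent.R142.UC

variable {V : Type*} [DecidableEq V]

/-- the largest member of `F` contained in `S` -/
def core (F : Finset (Finset V)) (S : Finset V) : Finset V :=
  (F.filter (fun A => A ⊆ S)).sup id

/-- number of the members containing `x` -/
def freq (F : Finset (Finset V)) (x : V) : ℕ := (F.filter (fun W => x ∈ W)).card

/-- `F` is a union-closed family with the empty set, and `p` is a symmetric potential for `F` with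
the weights `w ≥ 0` (complements are taken in the largest member of `F`). -/
structure Potential (F : Finset (Finset V)) (p : Finset V → ℝ) (w : V → ℝ) : Prop where
  empty_mem : ∅ ∈ F
  union_mem : ∀ X ∈ F, ∀ Y ∈ F, X ∪ Y ∈ F
  empty : p ∅ = 0
  mono : ∀ A ∈ F, ∀ X ∈ F, A ⊆ X → p A ≤ p X
  le_core : ∀ S ⊆ F.sup id, p S ≤ p (core F S)
  neg : ∀ S ⊆ F.sup id, S.Nonempty → core F S = ∅ → p S < 0
  diff : ∀ W ∈ F, p W - p (F.sup id \ W) = ∑ x ∈ W, w x - ∑ x ∈ F.sup id \ W, w x
  nonneg : ∀ x ∈ F.sup id, 0 ≤ w x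

theorem core_subset (F : Finset (Finset V)) (S : Finset V) : core F S ⊆ S := by
  unfold core
  apply Finset.sup_le
  intro A hA
  exact (Finset.mem_filter.1 hA).2

theorem subset_core (F : Finset (Finset V)) {S A : Finset V} (hA : A ∈ F) (h : A ⊆ S) :
    A ⊆ core F S :=
  Finset.le_sup (f := id) (Finset.mem_filter.2 ⟨hA, h⟩)

theorem subset_sup (F : Finset (Finset V)) {A : Finset V} (hA : A ∈ F) : A ⊆ F.sup id :=
  Finset.le_sup (f := id) hA

theorem star_eq_core (F : Finset (Finset V)) (W : Finset V) :
    star F W = core F (F.sup id \ W) := by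
  unfold star core
  congr 1
  apply Finset.filter_congr
  intro A hA
  rw [Finset.subset_sdiff]
  exact ⟨fun h => ⟨subset_sup F hA, h⟩, fun h => h.2⟩

section

variable {F : Finset (Finset V)} {p : Finset V → ℝ} {w : V → ℝ}

theorem core_mem (h : Potential F p w) (S : Finset V) : core F S ∈ F :=
  sup_mem _ h.empty_mem h.union_mem _ (Finset.filter_subset _ _)

theorem top_mem (h : Potential F p w) : F.sup id ∈ F :=
  sup_mem _ h.empty_mem h.union_mem _ (Finset.Subset.refl _)

theorem weighted_eq (h : Potential F p w) (F' : Finset (Finset V)) (hF : F' ⊆ F) :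
    ∑ x ∈ F.sup id, w x * (2 * (freq F' x : ℝ) - F'.card) =
      ∑ W ∈ F', (p W - p (F.sup id \ W)) := by
  set T := F.sup id with hT
  have h1 : ∀ x, (2 * (freq F' x : ℝ) - F'.card) =
      ∑ W ∈ F', (if x ∈ W then (1 : ℝ) else -1) := by
    intro x
    rw [Finset.sum_ite]
    simp only [Finset.sum_const, nsmul_eq_mul, mul_one, mul_neg]
    have h2 : ((F'.filter (fun W => x ∈ W)).card : ℝ) + (F'.filter (fun W => ¬ x ∈ W)).card =
        F'.card := by
      rw [← Nat.cast_add, Finset.card_filter_add_card_filter_not]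
    unfold freq
    linarith
  have h2 : ∀ W ∈ F', p W - p (T \ W) =
      ∑ x ∈ T, w x * (if x ∈ W then (1 : ℝ) else -1) := by
    intro W hW
    have hWT : W ⊆ T := subset_sup F (hF hW)
    rw [h.diff W (hF hW), ← hT, ← Finset.sum_sdiff hWT, sub_eq_add_neg, add_comm]
    congr 1
    · rw [← Finset.sum_neg_distrib]
      apply Finset.sum_congr rfl
      intro x hx
      rw [if_neg (Finset.mem_sdiff.1 hx).2]
      ring
    · apply Finset.sum_congr rfl
      intro x hx
      rw [if_pos hx]
      ring
  rw [Finset.sum_congr rfl h2, Finset.sum_comm]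
  apply Finset.sum_congr rfl
  intro x _
  rw [h1 x, Finset.mul_sum]

/-- **The weighted inequality.** -/
theorem weighted_nonneg (h : Potential F p w) (F' : Finset (Finset V)) (hF : F' ⊆ F)
    (hu : ∀ W ∈ F', ∀ X ∈ F, W ∪ X ∈ F') :
    0 ≤ ∑ x ∈ F.sup id, w x * (2 * (freq F' x : ℝ) - F'.card) := by
  rw [weighted_eq h F' hF, Finset.sum_sub_distrib, sub_nonneg]
  have h1 := sum_star_le F F' h.empty_mem h.union_mem hF hu p
    (fun X hX Y hY hs => h.mono X hX Y (hF hY) hs)
  refine le_trans ?_ h1
  apply Finset.sum_le_sum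
  intro W _
  rw [star_eq_core]
  exact h.le_core _ Finset.sdiff_subset

/-- **The strict inequality.** -/
theorem weighted_pos (h : Potential F p w) (F' : Finset (Finset V)) (hF : F' ⊆ F)
    (hu : ∀ W ∈ F', ∀ X ∈ F, W ∪ X ∈ F') (hc : ∃ W ∈ F', F.sup id \ W ∉ F) :
    0 < ∑ x ∈ F.sup id, w x * (2 * (freq F' x : ℝ) - F'.card) := by
  rw [weighted_eq h F' hF, Finset.sum_sub_distrib, sub_pos]
  have h1 := sum_star_le F F' h.empty_mem h.union_mem hF hu p
    (fun X hX Y hY hs => h.mono X hX Y (hF hY) hs)
  refine lt_of_lt_of_le ?_ h1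
  obtain ⟨W, hW, hWc⟩ := hc
  set T := F.sup id with hT
  set Y := core F (T \ W) with hY
  have hYf : Y ∈ F := core_mem h _
  have hZ : W ∪ Y ∈ F' := hu W hW Y hYf
  apply Finset.sum_lt_sum
  · intro X _
    rw [star_eq_core]
    exact h.le_core _ Finset.sdiff_subset
  · refine ⟨W ∪ Y, hZ, ?_⟩
    rw [star_eq_core, ← hT]
    have hYs : Y ⊆ T \ W := core_subset F _
    have hce : core F (T \ (W ∪ Y)) = ∅ := by
      have h2 : core F (T \ (W ∪ Y)) ⊆ T \ (W ∪ Y) := core_subset F _
      have h3 : core F (T \ (W ∪ Y)) ⊆ Y :=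
        subset_core F (core_mem h _) (h2.trans (Finset.sdiff_subset_sdiff
          (Finset.Subset.refl _) Finset.subset_union_left))
      rw [Finset.eq_empty_iff_forall_notMem]
      intro x hx
      have h4 := (Finset.mem_sdiff.1 (h2 hx)).2
      exact h4 (Finset.mem_union_right _ (h3 hx))
    have hne : (T \ (W ∪ Y)).Nonempty := by
      rw [Finset.nonempty_iff_ne_empty]
      intro h0
      apply hWc
      have h5 : T \ W ⊆ Y := by
        intro x hx
        by_contra hxY
        have : x ∈ T \ (W ∪ Y) := by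
          rw [Finset.mem_sdiff, Finset.mem_union]
          exact ⟨(Finset.mem_sdiff.1 hx).1, fun h => h.elim (Finset.mem_sdiff.1 hx).2 hxY⟩
        rw [h0] at this
        exact absurd this (Finset.notMem_empty _)
      rw [Finset.Subset.antisymm h5 hYs]
      exact hYf
    rw [hce, h.empty]
    exact h.neg _ Finset.sdiff_subset hne hce

/-- if no element lies in more than half of the members, complements are members -/
theorem compl_mem_of_le (h : Potential F p w) (F' : Finset (Finset V)) (hF : F' ⊆ F)
    (hu : ∀ W ∈ F', ∀ X ∈ F, W ∪ X ∈ F') (hle : ∀ x, 2 * freq F' x ≤ F'.card) :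
    ∀ W ∈ F', F.sup id \ W ∈ F := by
  by_contra hcon
  push Not at hcon
  have h1 := weighted_pos h F' hF hu hcon
  have h2 : ∑ x ∈ F.sup id, w x * (2 * (freq F' x : ℝ) - F'.card) ≤ 0 := by
    apply Finset.sum_nonpos
    intro x hx
    apply mul_nonpos_of_nonneg_of_nonpos (h.nonneg x hx)
    have h3 : ((2 * freq F' x : ℕ) : ℝ) ≤ (F'.card : ℝ) := by exact_mod_cast hle x
    push_cast at h3
    linarith
  linarith

/-- **The main theorem**: some element lies in more than half of the members of `F'`, unless
`F' = F` is closed under complements. -/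
theorem main (h : Potential F p w) (F' : Finset (Finset V)) (hF : F' ⊆ F)
    (hu : ∀ W ∈ F', ∀ X ∈ F, W ∪ X ∈ F') (hne : F'.Nonempty) :
    (∃ x, F'.card < 2 * freq F' x) ∨ (F' = F ∧ ∀ W ∈ F, F.sup id \ W ∈ F) := by
  by_contra hcon
  push Not at hcon
  obtain ⟨hle, hex⟩ := hcon
  have hcompl := compl_mem_of_le h F' hF hu hle
  obtain ⟨W, hW, hmin⟩ := Finset.exists_min_image F' (fun A => A.card) hne
  set T := F.sup id with hT
  by_cases hW0 : W = ∅
  · -- the empty set is a member of `F'`
    subst hW0
    have hFF : F' = F := by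
      apply Finset.Subset.antisymm hF
      intro X hX
      have := hu ∅ hW X hX
      rwa [Finset.empty_union] at this
    obtain ⟨X, hX, hXc⟩ := hex hFF
    rw [← hFF] at hX
    exact hXc (hcompl X hX)
  · -- a minimal nonempty set `B ⊆ W` such that `B` and its complement are in `F`
    have hWF := hF hW
    have hb : (F.filter (fun A => A.Nonempty ∧ T \ A ∈ F ∧ A ⊆ W)).Nonempty :=
      ⟨W, Finset.mem_filter.2 ⟨hWF, Finset.nonempty_iff_ne_empty.2 hW0, hcompl W hW,
        Finset.Subset.refl _⟩⟩
    obtain ⟨B, hB, hBmin⟩ := Finset.exists_min_image _ (fun A => A.card) hb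
    obtain ⟨hBF, hBne, hBc, hBW⟩ := Finset.mem_filter.1 hB
    have hinter : ∀ X ∈ F', X ∩ B ∈ F ∧ T \ (X ∩ B) ∈ F := by
      intro X hX
      have h1 : T \ (X ∩ B) = T \ X ∪ T \ B := sdiff_inf
      have h2 : T \ (X ∩ B) ∈ F := by
        rw [h1]
        exact h.union_mem _ (hcompl X hX) _ hBc
      refine ⟨?_, h2⟩
      by_contra hnot
      -- `X ∪ (T \ B)` is in `F'`, its complement `B \ X` is in `F`
      have h6 : X ∪ T \ B ∈ F' := hu X hX _ hBc
      have h7 : T \ (X ∪ T \ B) ∈ F := hcompl _ h6
      have h8 : T \ (X ∪ T \ B) = B \ X := by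
        ext z
        simp only [Finset.mem_sdiff, Finset.mem_union, not_or, not_and, not_not]
        constructor
        · rintro ⟨hz, hzX, hzB⟩
          exact ⟨hzB hz, hzX⟩
        · rintro ⟨hzB, hzX⟩
          exact ⟨subset_sup F hBF hzB, hzX, fun _ => hzB⟩
      rw [h8] at h7
      -- `B \ X` is in `F`; its complement is `X ∪ (T \ B)`, in `F`
      by_cases hBX : (B \ X).Nonempty
      · have h9 : T \ (B \ X) = X ∪ T \ B := by
          rw [← h8, Finset.sdiff_sdiff_eq_self]
          exact Finset.union_subset (subset_sup F (hF hX)) Finset.sdiff_subset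
        have h10 := hBmin (B \ X) (Finset.mem_filter.2 ⟨h7, hBX, by
          rw [h9]; exact hF h6, Finset.sdiff_subset.trans hBW⟩)
        have h11 := Finset.eq_of_subset_of_card_le (Finset.sdiff_subset (s := B) (t := X)) h10
        have h12 : X ∩ B = ∅ := by
          rw [Finset.inter_comm, ← Finset.disjoint_iff_inter_eq_empty]
          exact Finset.sdiff_eq_self_iff_disjoint.1 h11
        rw [h12] at hnot
        exact hnot h.empty_mem
      · rw [Finset.not_nonempty_iff_eq_empty, Finset.sdiff_eq_empty_iff_subset] at hBX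
        rw [Finset.inter_eq_right.2 hBX] at hnot
        exact hnot hBF
    have hblock : ∀ X ∈ F', Disjoint X B ∨ B ⊆ X := by
      intro X hX
      by_cases hd : (X ∩ B).Nonempty
      · right
        obtain ⟨h1, h2⟩ := hinter X hX
        have h3 := hBmin _ (Finset.mem_filter.2 ⟨h1, hd, h2, Finset.inter_subset_right.trans hBW⟩)
        have h4 := Finset.eq_of_subset_of_card_le (Finset.inter_subset_right (s₁ := X)) h3
        rw [← h4]
        exact Finset.inter_subset_left
      · left
        rw [Finset.not_nonempty_iff_eq_empty] at hd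
        exact Finset.disjoint_iff_inter_eq_empty.2 hd
    obtain ⟨x, hx⟩ := hBne
    have h5 : (F'.filter (fun X => ¬ x ∈ X)).card < (F'.filter (fun X => x ∈ X)).card := by
      have h6 : ((F'.filter (fun X => ¬ x ∈ X)).image (fun X => X ∪ B)) ⊂
          F'.filter (fun X => x ∈ X) := by
        rw [Finset.ssubset_iff_of_subset]
        · refine ⟨W, Finset.mem_filter.2 ⟨hW, hBW hx⟩, ?_⟩
          intro hmem
          obtain ⟨X, hX, hXW⟩ := Finset.mem_image.1 hmem
          obtain ⟨hXF, hxX⟩ := Finset.mem_filter.1 hX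
          have h7 := hmin X hXF
          have h8 : X ⊂ W := by
            rw [Finset.ssubset_iff_of_subset (by rw [← hXW]; exact Finset.subset_union_left)]
            exact ⟨x, hBW hx, hxX⟩
          have h9 := Finset.card_lt_card h8
          omega
        · intro Y hY
          obtain ⟨X, hX, rfl⟩ := Finset.mem_image.1 hY
          obtain ⟨hXF, _⟩ := Finset.mem_filter.1 hX
          exact Finset.mem_filter.2 ⟨hu X hXF B hBF, Finset.mem_union_right _ hx⟩
      have h7 := Finset.card_lt_card h6
      rwa [Finset.card_image_of_injOn] at h7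
      intro X hX X' hX' heq
      have key : ∀ Z : Finset V, Z ∈ F' → x ∉ Z → (Z ∪ B) \ B = Z := by
        intro Z hZ hxZ
        have hd : Disjoint Z B := (hblock Z hZ).resolve_right (fun h => hxZ (h hx))
        rw [Finset.union_sdiff_right]
        exact Finset.sdiff_eq_self_of_disjoint hd
      have hX1 := Finset.mem_filter.1 (Finset.mem_coe.1 hX)
      have hX2 := Finset.mem_filter.1 (Finset.mem_coe.1 hX')
      simp only at heq
      rw [← key X hX1.1 hX1.2, ← key X' hX2.1 hX2.2, heq]
    have h6 := Finset.card_filter_add_card_filter_not (s := F') (fun X => x ∈ X)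
    have h7 := hle x
    unfold freq at h7
    omega

/-- **Poonen's form.** -/
theorem poonen (h : Potential F p w) (F' : Finset (Finset V)) (hF : F' ⊆ F)
    (hu : ∀ W ∈ F', ∀ X ∈ F, W ∪ X ∈ F') (hne : F'.Nonempty)
    (hsep : ∀ x ∈ F'.sup id, ∀ y ∈ F'.sup id, x ≠ y → ∃ W ∈ F', ¬ (x ∈ W ↔ y ∈ W))
    (hpow : F' ≠ (F'.sup id).powerset) : ∃ x, F'.card < 2 * freq F' x := by
  rcases main h F' hF hu hne with hx | ⟨heq, hcompl⟩
  · exact hx
  exfalso
  subst heq
  set T := F'.sup id with hT
  apply hpow
  apply Finset.Subset.antisymm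
  · intro W hW
    exact Finset.mem_powerset.2 (subset_sup F' hW)
  · have hinter : ∀ X ∈ F', ∀ Y ∈ F', X ∩ Y ∈ F' := by
      intro X hX Y hY
      have h1 := hcompl _ (h.union_mem _ (hcompl X hX) _ (hcompl Y hY))
      have h2 : T \ (T \ X ∪ T \ Y) = X ∩ Y := by
        ext z
        simp only [Finset.mem_sdiff, Finset.mem_union, Finset.mem_inter]
        constructor
        · intro h
          by_contra hz
          apply h.2
          by_cases hzX : z ∈ X
          · exact Or.inr ⟨h.1, fun hzY => hz ⟨hzX, hzY⟩⟩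
          · exact Or.inl ⟨h.1, hzX⟩
        · intro h
          exact ⟨subset_sup F' hX h.1, fun h' => h'.elim (fun h'' => h''.2 h.1)
            (fun h'' => h''.2 h.2)⟩
      rw [h2] at h1
      exact h1
    have hsing : ∀ x ∈ T, ({x} : Finset V) ∈ F' := by
      intro x hx
      obtain ⟨M, hM, hmin⟩ := Finset.exists_min_image
        (F'.filter (fun A => x ∈ A)) (fun A => A.card)
        ⟨T, Finset.mem_filter.2 ⟨top_mem h, hx⟩⟩
      obtain ⟨hMf, hxM⟩ := Finset.mem_filter.1 hM
      have hM1 : M = {x} := by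
        apply Finset.Subset.antisymm
        · intro y hy
          by_contra hyx
          rw [Finset.mem_singleton] at hyx
          obtain ⟨W, hW, hWxy⟩ := hsep x hx y (subset_sup F' hMf hy) (Ne.symm hyx)
          have hex : ∃ Z ∈ F', x ∈ Z ∧ y ∉ Z := by
            by_cases hxW : x ∈ W
            · exact ⟨W, hW, hxW, fun h => hWxy ⟨fun _ => h, fun _ => hxW⟩⟩
            · refine ⟨T \ W, hcompl W hW, Finset.mem_sdiff.2 ⟨hx, hxW⟩, ?_⟩
              intro h
              exact hWxy ⟨fun h' => absurd h' hxW,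
                fun h' => absurd h' (Finset.mem_sdiff.1 h).2⟩
          obtain ⟨Z, hZ, hxZ, hyZ⟩ := hex
          have h3 := hmin _ (Finset.mem_filter.2 ⟨hinter M hMf Z hZ,
            Finset.mem_inter.2 ⟨hxM, hxZ⟩⟩)
          have h4 := Finset.eq_of_subset_of_card_le (Finset.inter_subset_left (s₂ := Z)) h3
          have h5 : y ∈ M ∩ Z := by rw [h4]; exact hy
          exact hyZ (Finset.mem_inter.1 h5).2
        · intro y hy
          rw [Finset.mem_singleton] at hy
          subst hy
          exact hxM
      rw [← hM1]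
      exact hMf
    intro W hW
    have hWT := Finset.mem_powerset.1 hW
    have h6 : (W.image (fun x => ({x} : Finset V))).sup id ∈ F' := by
      apply sup_mem _ h.empty_mem h.union_mem
      intro A hA
      obtain ⟨x, hx, rfl⟩ := Finset.mem_image.1 hA
      exact hsing x (hWT hx)
    have h7 : (W.image (fun x => ({x} : Finset V))).sup id = W := by
      ext z
      simp
    rw [h7] at h6
    exact h6

end

end Pool.Agent.R142.UC
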